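import Mathlib
import Pool.Agent.H362R2.RQ.Place
import Pool.Agent.W142.ES.Prime

set_option autoImplicit false

/-! OP: windows with primes near prescribed multiples of a unit. -/

open Finset Filter

namespace Pool.Agent.W142.OP

open Pool.Agent.H378R2 (yy)
open Pool.Agent.H256R2.SC (ff)
open Pool.Agent.H362R2.RQ (StRQ cmod fib_cmod dvd_of_primes)
open Pool.Agent.W142.ES (exists_prime_short)

/-- growth facts -/
theorem ev_placeK (C : ℝ) (Y0 : ℝ) : ∀ᶠ X : ℝ in atTop, 8 * |Y0| + 80 ≤ Real.log X ∧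
    1 ≤ Real.log (Real.log X) ∧ C ≤ (Real.log (Real.log X) / 2) ^ (1 / 60 : ℝ) ∧
    2 * Real.log 8 ≤ Real.log (Real.log X) := by
  have hLL : Tendsto (fun X : ℝ => Real.log (Real.log X)) atTop atTop :=
    Real.tendsto_log_atTop.comp Real.tendsto_log_atTop
  have h1 : Tendsto (fun u : ℝ => (u / 2) ^ (1 / 60 : ℝ)) atTop atTop :=
    (tendsto_rpow_atTop (by norm_num : (0 : ℝ) < 1 / 60)).comp (tendsto_id.atTop_div_const (by norm_num))
  filter_upwards [Real.tendsto_log_atTop.eventually_ge_atTop (8 * |Y0| + 80),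
    hLL.eventually_ge_atTop 1, hLL.eventually (h1.eventually_ge_atTop C), hLL.eventually_ge_atTop (2 * Real.log 8)]
    with X a1 a2 a3 a4
  exact ⟨a1, a2, a3, a4⟩

/-- windows with prescribed positions -/
theorem placeK (h : StRQ) : ∃ η : ℝ, 0 < η ∧ ∀ m : ℕ, ∀ hm : 1 ≤ m, ∃ K : ℕ, m ≤ K ∧ ∃ c : ℝ, 0 < c ∧
    ∀ (N : Fin K → ℕ) (W : ℕ), Function.Injective N → (∀ j, N j ≤ W) → 1 ≤ W →
    ∀ q a : ℕ, Squarefree q → a.Coprime q → ∀ᶠ X : ℝ in atTop, ∀ F : ℝ, Real.log X ≤ F → F ≤ c * ff X →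
    ∀ bad : Finset ℕ, (bad.card : ℝ) ≤ X ^ (9 / 10 : ℝ) →
    ∃ n : ℕ, X < n ∧ (n : ℝ) ≤ 3 * X ∧ n ∉ bad ∧ ∃ (t : Fin K → ℕ),
      (∀ j, F / (2 * W + 1) * ((W : ℝ) + N j) < t j ∧
        (t j : ℝ) ≤ F / (2 * W + 1) * ((W : ℝ) + N j) + F / (2 * W + 1) / 4) ∧
      (∃ D : Finset (Fin m), η * m ≤ D.card ∧ ∀ d ∈ D, ∃ j, cmod K m hm j = d ∧ (n + t j).Prime) ∧
      ∀ s : ℕ, (s : ℝ) ≤ F → (n + s).Prime → n + s ≡ a [MOD q] ∧ ∃ j, s = t j := by
  obtain ⟨η, hη, hmain⟩ := h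
  refine ⟨η, hη, fun m hm => ?_⟩
  obtain ⟨K, hmK, c, hc, hX1'⟩ := hmain m hm
  refine ⟨K, hmK, c, hc, fun N W hNinj hNW hW1 q a hqsf haq => ?_⟩
  have hq0 : 0 < q := Nat.pos_of_ne_zero hqsf.ne_zero
  obtain ⟨X1, hX1⟩ := hX1' q
  have hW : (1 : ℝ) ≤ W := by exact_mod_cast hW1
  obtain ⟨Y0, hY0⟩ := Filter.eventually_atTop.1 (exists_prime_short q hq0 a haq)
  filter_upwards [eventually_ge_atTop X1, ev_placeK (4 * (2 * W + 1)) Y0] with X hXX1 hX
  obtain ⟨hlX, hLL1, hLLK, hLL8⟩ := hX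
  intro F hlF hFc bad hbad
  have hY0n := abs_nonneg Y0
  have hF80 : 8 * |Y0| + 80 ≤ F := hlX.trans hlF
  have hFpos : 0 < F := by linarith
  have hLLpos : 0 < Real.log (Real.log X) := by linarith
  set u : ℝ := F / (2 * W + 1) with hu
  have hu0 : 0 < u := by positivity
  have huW : u * (2 * W + 1) = F := by rw [hu]; field_simp
  have hNr : ∀ j, (0 : ℝ) ≤ N j ∧ (N j : ℝ) ≤ W := fun j => ⟨Nat.cast_nonneg _, by exact_mod_cast hNW j⟩
  have hylow : ∀ j, F / 3 ≤ u * ((W : ℝ) + N j) := by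
    intro j
    have h1 := (hNr j).1
    have h2 : u * (2 * W + 1) ≤ u * (3 * ((W : ℝ) + N j)) := mul_le_mul_of_nonneg_left (by linarith) hu0.le
    linarith
  have hyup : ∀ j, u * ((W : ℝ) + N j) + u ≤ F := by
    intro j
    have h1 := (hNr j).2
    have h2 : u * ((W : ℝ) + N j + 1) ≤ u * (2 * W + 1) := mul_le_mul_of_nonneg_left (by linarith) hu0.le
    linarith
  have hshort : ∀ j, u * ((W : ℝ) + N j) / (Real.log (u * ((W : ℝ) + N j))) ^ (1 / 60 : ℝ) ≤ u / 4 := by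
    intro j
    have h1 := hylow j
    have h2 := hyup j
    have h3 : Real.log (Real.log X) / 2 ≤ Real.log (u * ((W : ℝ) + N j)) := by
      have h4 : Real.log X / 8 ≤ u * ((W : ℝ) + N j) := by linarith
      have h5 : 0 < Real.log X := by linarith
      have h6 := Real.log_le_log (by positivity) h4
      rw [Real.log_div h5.ne' (by norm_num)] at h6
      linarith
    have h4 : (Real.log (Real.log X) / 2) ^ (1 / 60 : ℝ) ≤ (Real.log (u * ((W : ℝ) + N j))) ^ (1 / 60 : ℝ) :=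
      Real.rpow_le_rpow (by positivity) h3 (by norm_num)
    have h5 := hLLK.trans h4
    have h6 : 0 < (Real.log (u * ((W : ℝ) + N j))) ^ (1 / 60 : ℝ) := lt_of_lt_of_le (by positivity) h5
    rw [div_le_iff₀ h6]
    calc u * ((W : ℝ) + N j) ≤ F := by linarith
      _ = u / 4 * (4 * (2 * W + 1)) := by rw [← huW]; ring
      _ ≤ _ := mul_le_mul_of_nonneg_left h5 (by linarith)
  have hex : ∀ j, ∃ p : ℕ, p.Prime ∧ p ≡ a [MOD q] ∧ u * ((W : ℝ) + N j) < p ∧
      (p : ℝ) ≤ u * ((W : ℝ) + N j) + u / 4 := by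
    intro j
    have h1 := hylow j
    obtain ⟨p, hp, hpa, hp1, hp2⟩ := hY0 (u * ((W : ℝ) + N j)) (by
      have := le_abs_self Y0
      linarith)
    exact ⟨p, hp, hpa, hp1, hp2.trans (by have := hshort j; linarith)⟩
  choose t htp hta htl htu using hex
  have htinj : Function.Injective t := by
    intro j j' hjj
    have h1 := htl j
    have h2 := htu j
    have h3 := htl j'
    have h4 := htu j'
    rw [← hjj] at h3 h4
    have h5 : (N j : ℝ) < N j' + 1 := by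
      have : u * (N j : ℝ) < u * (N j' + 1) := by nlinarith
      exact lt_of_mul_lt_mul_left this hu0.le
    have h6 : (N j' : ℝ) < N j + 1 := by
      have : u * (N j' : ℝ) < u * (N j + 1) := by nlinarith
      exact lt_of_mul_lt_mul_left this hu0.le
    have h7 : N j < N j' + 1 := by exact_mod_cast h5
    have h8 : N j' < N j + 1 := by exact_mod_cast h6
    exact hNinj (by omega)
  have htF : ∀ j, (t j : ℝ) ≤ F := by
    intro j
    have h1 := htu j
    have h2 := hyup j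
    linarith
  have htyy : ∀ j, yy X < t j := by
    intro j
    have h0 : 0 ≤ Real.log X := by linarith
    have h1 : (yy X : ℝ) ≤ Real.log X / 1000 := Nat.floor_le (by positivity)
    have h4 := hylow j
    have h5 := htl j
    have h6 : (yy X : ℝ) < t j := by linarith
    exact_mod_cast h6
  obtain ⟨n, hn1, hn2, hn3, ⟨G, hG1, hG2⟩, hn4, hn5⟩ := hX1 X hXX1 t htinj
    (fun j => ⟨htp j, htyy j, (htF j).trans hFc⟩) (cmod K m hm) (fib_cmod K m hm hmK) bad hbad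
  have hqn : q ∣ n := dvd_of_primes q n hqsf fun p hp hpq => hn5 p hp (Nat.le_of_dvd hq0 hpq)
  refine ⟨n, hn1, hn2, hn3, t, fun j => ⟨htl j, htu j⟩, ⟨G, hG1, hG2⟩, ?_⟩
  intro s hs hp
  obtain ⟨j, hj⟩ := hn4 s (hs.trans hFc) hp
  refine ⟨?_, j, hj⟩
  rw [hj]
  have h1 : n ≡ 0 [MOD q] := (Nat.modEq_zero_iff_dvd).2 hqn
  have h2 := h1.add (hta j)
  rwa [zero_add] at h2

end Pool.Agent.W142.OP
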