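import Mathlib

set_option autoImplicit false

/-! OP: combinatorics of nondecreasing sequences with plateaus, and the order patterns they force. -/

open Finset

namespace Pool.Agent.W142.OP

/-- `g` is increasing on `[i, j]`, by factors larger than `A` -/
def Inc (A : ℕ) (g : ℕ → ℕ) (i j : ℕ) : Prop := ∀ l, i ≤ l → l < j → A * g l < g (l + 1)

/-- seven order patterns of `g 0, ..., g k` -/
def Shape (A k : ℕ) (g : ℕ → ℕ) : ℕ → Prop
  | 0 => Inc A g 0 k
  | 1 => Inc A g 0 (k - 1) ∧ A * g k < g 0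
  | 2 => Inc A g 1 k ∧ A * g k < g 0
  | 3 => Inc A g 0 (k - 1) ∧ A * g (k - 2) < g k ∧ A * g k < g (k - 1)
  | 4 => A * g 0 < g 2 ∧ Inc A g 2 k ∧ A * g k < g 1
  | 5 => A * g 0 < g 1 ∧ Inc A g 2 k ∧ A * g k < g 0
  | _ => Inc A g 0 (k - 2) ∧ A * g (k - 1) < g (k - 2) ∧ A * g (k - 1) < g k

theorem Shape.mono (A A' k : ℕ) (g g' : ℕ → ℕ) (hk : 2 ≤ k)
    (h : ∀ l l', l ≤ k → l' ≤ k → A * g l < g l' → A' * g' l < g' l') (T : ℕ) (hT : Shape A k g T) :
    Shape A' k g' T := by
  have hI : ∀ i j, j ≤ k → Inc A g i j → Inc A' g' i j := fun i j hj hi l h1 h2 =>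
    h l (l + 1) (by omega) (by omega) (hi l h1 h2)
  match T, hT with
  | 0, hT => exact hI 0 k le_rfl hT
  | 1, hT => exact ⟨hI 0 _ (by omega) hT.1, h _ _ (by omega) (by omega) hT.2⟩
  | 2, hT => exact ⟨hI 1 _ (by omega) hT.1, h _ _ (by omega) (by omega) hT.2⟩
  | 3, hT => exact ⟨hI 0 _ (by omega) hT.1, h _ _ (by omega) (by omega) hT.2.1,
      h _ _ (by omega) (by omega) hT.2.2⟩
  | 4, hT => exact ⟨h _ _ (by omega) (by omega) hT.1, hI 2 _ (by omega) hT.2.1,
      h _ _ (by omega) (by omega) hT.2.2⟩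
  | 5, hT => exact ⟨h _ _ (by omega) (by omega) hT.1, hI 2 _ (by omega) hT.2.1,
      h _ _ (by omega) (by omega) hT.2.2⟩
  | T + 6, hT => exact ⟨hI 0 _ (by omega) hT.1, h _ _ (by omega) (by omega) hT.2.1,
      h _ _ (by omega) (by omega) hT.2.2⟩

/-- a long plateau -/
theorem plateau (r L : ℕ) (s : ℕ → ℕ) (hs : ∀ l l', l ≤ l' → l' < r → s l ≤ s l') (v : ℕ) (hL : 1 ≤ L)
    (hv : L ≤ ((range r).filter (fun l => s l = v)).card) :
    ∃ a, a + L ≤ r ∧ (∀ i < L, s (a + i) = v) ∧ ∀ l < a, s l < v := by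
  classical
  set A := (range r).filter (fun l => s l = v) with hA
  have hne : A.Nonempty := by
    rw [← Finset.card_pos]
    omega
  set a := A.min' hne with ha
  have haA : a ∈ A := Finset.min'_mem A hne
  rw [hA, mem_filter, mem_range] at haA
  have h1 : ∃ l0 ∈ A, a + L - 1 ≤ l0 := by
    by_contra hcon
    push Not at hcon
    have h2 : A ⊆ Ico a (a + L - 1) := by
      intro l hl
      rw [mem_Ico]
      exact ⟨Finset.min'_le A l hl, hcon l hl⟩
    have h3 := Finset.card_le_card h2
    rw [Nat.card_Ico] at h3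
    omega
  obtain ⟨l0, hl0, hl0a⟩ := h1
  rw [hA, mem_filter, mem_range] at hl0
  refine ⟨a, by omega, ?_, ?_⟩
  · intro i hi
    have h2 := hs a (a + i) (by omega) (by omega)
    have h3 := hs (a + i) l0 (by omega) hl0.1
    have h4 := haA.2
    have h5 := hl0.2
    omega
  · intro l hl
    have h2 := hs l a hl.le haA.1
    have h3 := haA.2
    rcases Nat.lt_or_ge (s l) v with h | h
    · exact h
    · exfalso
      have h4 : l ∈ A := by
        rw [hA, mem_filter, mem_range]
        exact ⟨by omega, by omega⟩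
      have := Finset.min'_le A l h4
      omega

/-- two long plateaus: the start of a plateau and the first descent -/
theorem two_plateaus (r k : ℕ) (hk : 1 ≤ k) (s : ℕ → ℕ) (hs : ∀ l l', l ≤ l' → l' < r → s l ≤ s l') (v v' : ℕ) (hvv : v < v')
    (hv : k + 2 ≤ ((range r).filter (fun l => s l = v)).card)
    (hv' : k + 2 ≤ ((range r).filter (fun l => s l = v')).card) :
    (∃ a, 2 ≤ a ∧ a + k + 1 < r ∧ s (a - 1) < s a ∧ ∀ i ≤ k + 1, s (a + i) = s a) ∧
    ∃ j, k ≤ j ∧ j + 3 < r ∧ s j < s (j + 1) ∧ s (j + 1) = s (j + 2) ∧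
      ∀ i, j ≤ i + k → i < j → ¬ (s i < s (i + 1) ∧ s (i + 1) = s (i + 2)) := by
  classical
  obtain ⟨a1, h1, h2, h3⟩ := plateau r (k + 2) s hs v (by omega) hv
  obtain ⟨a2, h4, h5, h6⟩ := plateau r (k + 2) s hs v' (by omega) hv'
  have h7 : a1 + (k + 1) < a2 := by
    by_contra hcon
    have h8 := hs a2 (a1 + (k + 1)) (by omega) (by omega)
    have h9 := h2 (k + 1) (by omega)
    have h10 := h5 0 (by omega)
    rw [add_zero] at h10
    omega
  have hs2 : s a2 = v' := by
    have h10 := h5 0 (by omega)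
    rwa [add_zero] at h10
  refine ⟨⟨a2, by omega, by omega, ?_, ?_⟩, ?_⟩
  · rw [hs2]
    exact h6 (a2 - 1) (by omega)
  · intro i hi
    rw [hs2]
    exact h5 i (by omega)
  · have hex : ∃ j, a1 ≤ j ∧ s j < s (j + 1) ∧ s (j + 1) = s (j + 2) := by
      refine ⟨a2 - 1, by omega, ?_, ?_⟩
      · rw [show a2 - 1 + 1 = a2 by omega, hs2]
        exact h6 (a2 - 1) (by omega)
      · rw [show a2 - 1 + 1 = a2 by omega, show a2 - 1 + 2 = a2 + 1 by omega, hs2, h5 1 (by omega)]
    obtain ⟨hj1, hj2, hj3⟩ := Nat.find_spec hex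
    set j := Nat.find hex with hj
    have hjle : j ≤ a2 - 1 := by
      apply Nat.find_min' hex
      refine ⟨by omega, ?_, ?_⟩
      · rw [show a2 - 1 + 1 = a2 by omega, hs2]
        exact h6 (a2 - 1) (by omega)
      · rw [show a2 - 1 + 1 = a2 by omega, show a2 - 1 + 2 = a2 + 1 by omega, hs2, h5 1 (by omega)]
    have hjge : a1 + (k + 1) ≤ j := by
      by_contra hcon
      have h8 := h2 (j - a1) (by omega)
      have h9 := h2 (j - a1 + 1) (by omega)
      rw [show a1 + (j - a1) = j by omega] at h8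
      rw [show a1 + (j - a1 + 1) = j + 1 by omega] at h9
      omega
    refine ⟨j, by omega, by omega, hj2, hj3, ?_⟩
    intro i hi1 hi2 hcon
    have := Nat.find_min hex hi2
    exact this ⟨by omega, hcon⟩

/-- the two systems of ranks -/
structure Ranks (S K : ℕ) where
  /-- ranks inside the blocks -/
  kap : ℕ → ℕ → ℕ
  /-- ranks of the blocks -/
  rho : ℕ → ℕ
  lt1 : ∀ s j, s < S → j < K → kap s j < rho s
  lt3 : ∀ s j j', j < j' → kap s j < kap s j'
  lt4 : ∀ s s', s < s' → rho s < rho s'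

/-- the rank of the difference of two successive terms -/
def rk {S K : ℕ} (R : Ranks S K) (s J : ℕ → ℕ) (l : ℕ) : ℕ :=
  if s l = s (l + 1) then R.kap (s (l + 1)) (J (l + 1)) else R.rho (s (l + 1))

/-- decreasing inner scales -/
def dec (S K : ℕ) : Ranks S K where
  kap s j := (S - s) * K + j
  rho s := (S + 2) * K + s
  lt1 s j hs hj := by
    have h1 : (S - s) * K ≤ S * K := Nat.mul_le_mul_right K (Nat.sub_le S s)
    have h2 : (S + 2) * K = S * K + 2 * K := by ring
    omega
  lt3 s j j' h := by omega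
  lt4 s s' h := by omega

/-- interleaved scales -/
def inter (S K : ℕ) : Ranks S K where
  kap s j := s * (K + 2) + j
  rho s := s * (K + 2) + K + 1
  lt1 s j hs hj := by omega
  lt3 s j j' h := by omega
  lt4 s s' h := by
    have h1 : (s + 1) * (K + 2) ≤ s' * (K + 2) := Nat.mul_le_mul_right _ h
    have h2 : (s + 1) * (K + 2) = s * (K + 2) + K + 2 := by ring
    omega

theorem dec_lt1 (S K s j s' : ℕ) (hj : j < K) : (dec S K).kap s j < (dec S K).rho s' := by
  have h1 : (S - s) * K ≤ S * K := Nat.mul_le_mul_right K (Nat.sub_le S s)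
  have h2 : (S + 2) * K = S * K + 2 * K := by ring
  show (S - s) * K + j < (S + 2) * K + s'
  omega

theorem dec_lt2 (S K s j s' j' : ℕ) (hj' : j' < K) (hs : s < s') (hs' : s' < S) :
    (dec S K).kap s' j' < (dec S K).kap s j := by
  have h1 : (S - s' + 1) * K ≤ (S - s) * K := Nat.mul_le_mul_right K (by omega)
  have h2 : (S - s' + 1) * K = (S - s') * K + K := by ring
  show (S - s') * K + j' < (S - s) * K + j
  omega

theorem inter_lt2 (S K s s' j' : ℕ) (hs : s < s') : (inter S K).rho s < (inter S K).kap s' j' := by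
  have h1 : (s + 1) * (K + 2) ≤ s' * (K + 2) := Nat.mul_le_mul_right _ hs
  have h2 : (s + 1) * (K + 2) = s * (K + 2) + K + 2 := by ring
  show s * (K + 2) + K + 1 < s' * (K + 2) + j'
  omega

/-- ascents -/
theorem rk_up {S K : ℕ} (R : Ranks S K) (r : ℕ) (s J : ℕ → ℕ) (hs : ∀ l l', l ≤ l' → l' < r → s l ≤ s l')
    (hJ : ∀ l l', l < l' → l' < r → s l = s l' → J l < J l') (hS : ∀ l < r, s l < S) (hK : ∀ l < r, J l < K)
    (l : ℕ) (hl : l + 2 < r) (hn : ¬ (s l < s (l + 1) ∧ s (l + 1) = s (l + 2)))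
    (hdec : ∀ s' < S, ∀ s < s', ∀ j < K, R.kap s j < R.rho s') :
    rk R s J l < rk R s J (l + 1) := by
  unfold rk
  have h1 := hs l (l + 1) (by omega) (by omega)
  have h2 := hs (l + 1) (l + 2) (by omega) (by omega)
  have e : l + 1 + 1 = l + 2 := rfl
  rw [e]
  by_cases ha : s (l + 1) = s (l + 2)
  · have hb : s l = s (l + 1) := by omega
    rw [if_pos hb, if_pos ha, ← ha]
    exact R.lt3 _ _ _ (hJ (l + 1) (l + 2) (by omega) (by omega) ha)
  · rw [if_neg ha]
    have hlt : s (l + 1) < s (l + 2) := by omega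
    by_cases hb : s l = s (l + 1)
    · rw [if_pos hb]
      exact hdec _ (hS (l + 2) (by omega)) _ hlt _ (hK (l + 1) (by omega))
    · rw [if_neg hb]
      exact R.lt4 _ _ hlt

theorem dec_up (S K : ℕ) : ∀ s' < S, ∀ s < s', ∀ j < K, (dec S K).kap s j < (dec S K).rho s' :=
  fun s' _ s _ j hj => dec_lt1 S K s j s' hj

theorem inter_up (S K : ℕ) : ∀ s' < S, ∀ s < s', ∀ j < K, (inter S K).kap s j < (inter S K).rho s' :=
  fun _ hs' s hs j hj => ((inter S K).lt1 s j (hs.trans hs') hj).trans ((inter S K).lt4 _ _ hs)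

/-- windows with all the six patterns -/
theorem windows {S K : ℕ} (r k : ℕ) (hk : 2 ≤ k) (s J : ℕ → ℕ) (hs : ∀ l l', l ≤ l' → l' < r → s l ≤ s l')
    (hJ : ∀ l l', l < l' → l' < r → s l = s l' → J l < J l') (hS : ∀ l < r, s l < S) (hK : ∀ l < r, J l < K)
    (v v' : ℕ) (hvv : v < v')
    (hv : k + 2 ≤ ((range r).filter (fun l => s l = v)).card)
    (hv' : k + 2 ≤ ((range r).filter (fun l => s l = v')).card) (T : ℕ) :
    ∃ l, l + k + 1 < r ∧
      Shape 1 k (fun i => rk (if T = 3 ∨ T = 4 then inter S K else dec S K) s J (l + i)) T := by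
  obtain ⟨⟨a, ha2, har, has, hap⟩, j, hj1, hj2, hj3, hj4, hj5⟩ := two_plateaus r k (by omega) s hs v v' hvv hv hv'
  -- inner ranks on the plateau
  have hin : ∀ R : Ranks S K, ∀ i ≤ k, rk R s J (a + i) = R.kap (s a) (J (a + i + 1)) := by
    intro R i hi
    unfold rk
    have h1 := hap i (by omega)
    have h2 := hap (i + 1) (by omega)
    rw [← Nat.add_assoc] at h2
    rw [if_pos (by omega), h2]
  have hout : ∀ R : Ranks S K, rk R s J (a - 1) = R.rho (s a) := by
    intro R
    unfold rk
    rw [show a - 1 + 1 = a by omega, if_neg (by omega)]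
  have hinup : ∀ R : Ranks S K, ∀ i, i < k → rk R s J (a + i) < rk R s J (a + i + 1) := by
    intro R i hi
    rw [hin R i (by omega), show a + i + 1 = a + (i + 1) by omega, hin R (i + 1) (by omega)]
    apply R.lt3
    apply hJ _ _ (by omega) (by omega)
    rw [hap (i + 1) (by omega), show a + (i + 1) + 1 = a + (i + 2) by omega, hap (i + 2) (by omega)]
  have hsa : s a < S := hS a (by omega)
  have hprev : s (a - 1) < s a := has
  have hend : ∀ R : Ranks S K, rk R s J (j + 1) = R.kap (s (j + 1)) (J (j + 2)) := by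
    intro R
    unfold rk
    rw [if_pos hj4, ← hj4]
  have hendj : ∀ R : Ranks S K, rk R s J j = R.rho (s (j + 1)) := by
    intro R
    unfold rk
    rw [if_neg (by omega)]
  have hendup : ∀ R : Ranks S K, (∀ s' < S, ∀ s < s', ∀ j < K, R.kap s j < R.rho s') →
      Inc 1 (fun i => rk R s J (j + 1 - k + i)) 0 (k - 1) := by
    intro R hR l _ hl
    show 1 * rk R s J (j + 1 - k + l) < rk R s J (j + 1 - k + (l + 1))
    rw [one_mul]
    rw [show j + 1 - k + (l + 1) = (j + 1 - k + l) + 1 by omega]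
    exact rk_up R r s J hs hJ hS hK _ (by omega) (hj5 _ (by omega) (by omega)) hR
  match T with
  | 0 =>
    refine ⟨a, by omega, ?_⟩
    intro l _ hl
    show 1 * _ < _
    rw [one_mul]
    exact hinup _ l hl
  | 1 =>
    refine ⟨j + 1 - k, by omega, hendup _ (dec_up S K), ?_⟩
    show 1 * rk (dec S K) s J (j + 1 - k + k) < rk (dec S K) s J (j + 1 - k + 0)
    rw [one_mul]
    rw [show j + 1 - k + k = j + 1 by omega, hend, add_zero]
    have h1 : s (j + 1 - k + 1) ≤ s j := hs _ _ (by omega) (by omega)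
    unfold rk
    split_ifs
    · exact dec_lt2 S K _ _ _ _ (hK (j + 2) (by omega)) (by omega) (hS _ (by omega))
    · exact dec_lt1 S K _ _ _ (hK (j + 2) (by omega))
  | 2 =>
    refine ⟨a - 1, by omega, ?_, ?_⟩
    · intro l h1 hl
      show 1 * rk (dec S K) s J (a - 1 + l) < rk (dec S K) s J (a - 1 + (l + 1))
      rw [one_mul]
      have := hinup (dec S K) (l - 1) (by omega)
      rw [show a + (l - 1) = a - 1 + l by omega] at this
      exact this
    · show 1 * rk (dec S K) s J (a - 1 + k) < rk (dec S K) s J (a - 1 + 0)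
      rw [one_mul]
      rw [add_zero, hout, show a - 1 + k = a + (k - 1) by omega, hin _ _ (by omega)]
      exact dec_lt1 S K _ _ _ (hK _ (by omega))
  | 3 =>
    refine ⟨j + 1 - k, by omega, hendup _ (inter_up S K), ?_, ?_⟩
    · show 1 * rk (inter S K) s J (j + 1 - k + (k - 2)) < rk (inter S K) s J (j + 1 - k + k)
      rw [one_mul]
      rw [show j + 1 - k + k = j + 1 by omega, hend, show j + 1 - k + (k - 2) = j - 1 by omega]
      have h2 := inter_lt2 S K (s j) (s (j + 1)) (J (j + 2)) hj3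
      unfold rk
      rw [show j - 1 + 1 = j by omega]
      split_ifs
      · exact ((inter S K).lt1 _ _ (hS j (by omega)) (hK j (by omega))).trans h2
      · exact h2
    · show 1 * rk (inter S K) s J (j + 1 - k + k) < rk (inter S K) s J (j + 1 - k + (k - 1))
      rw [one_mul]
      rw [show j + 1 - k + k = j + 1 by omega, hend, show j + 1 - k + (k - 1) = j by omega, hendj]
      exact (inter S K).lt1 _ _ (hS _ (by omega)) (hK _ (by omega))
  | 4 =>
    have h3 : rk (inter S K) s J (a - 2) < rk (inter S K) s J a := by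
      have h4 := hin (inter S K) 0 (by omega)
      rw [add_zero] at h4
      rw [h4]
      have h2 := inter_lt2 S K (s (a - 1)) (s a) (J (a + 0 + 1)) hprev
      unfold rk
      rw [show a - 2 + 1 = a - 1 by omega]
      split_ifs
      · exact ((inter S K).lt1 _ _ (hS _ (by omega)) (hK _ (by omega))).trans h2
      · exact h2
    refine ⟨a - 2, by omega, ?_, ?_, ?_⟩
    · show 1 * rk (inter S K) s J (a - 2 + 0) < rk (inter S K) s J (a - 2 + 2)
      rw [one_mul]
      rw [add_zero, show a - 2 + 2 = a by omega]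
      exact h3
    · intro l h1 hl
      show 1 * rk (inter S K) s J (a - 2 + l) < rk (inter S K) s J (a - 2 + (l + 1))
      rw [one_mul]
      have := hinup (inter S K) (l - 2) (by omega)
      rw [show a + (l - 2) = a - 2 + l by omega] at this
      exact this
    · show 1 * rk (inter S K) s J (a - 2 + k) < rk (inter S K) s J (a - 2 + 1)
      rw [one_mul]
      rw [show a - 2 + 1 = a - 1 by omega, hout, show a - 2 + k = a + (k - 2) by omega, hin _ _ (by omega)]
      exact (inter S K).lt1 _ _ hsa (hK _ (by omega))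
  | T + 6 =>
    have hR : (if T + 6 = 3 ∨ T + 6 = 4 then inter S K else dec S K) = dec S K := if_neg (by omega)
    rw [hR]
    refine ⟨j + 2 - k, by omega, ?_, ?_, ?_⟩
    · intro l _ hl
      show 1 * rk (dec S K) s J (j + 2 - k + l) < rk (dec S K) s J (j + 2 - k + (l + 1))
      rw [one_mul]
      rw [show j + 2 - k + (l + 1) = (j + 2 - k + l) + 1 by omega]
      exact rk_up (dec S K) r s J hs hJ hS hK _ (by omega) (hj5 _ (by omega) (by omega)) (dec_up S K)
    · show 1 * rk (dec S K) s J (j + 2 - k + (k - 1)) < rk (dec S K) s J (j + 2 - k + (k - 2))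
      rw [one_mul]
      rw [show j + 2 - k + (k - 1) = j + 1 by omega, show j + 2 - k + (k - 2) = j by omega, hend, hendj]
      exact dec_lt1 S K _ _ _ (hK _ (by omega))
    · show 1 * rk (dec S K) s J (j + 2 - k + (k - 1)) < rk (dec S K) s J (j + 2 - k + k)
      rw [one_mul]
      rw [show j + 2 - k + (k - 1) = j + 1 by omega, show j + 2 - k + k = (j + 1) + 1 by omega]
      exact rk_up (dec S K) r s J hs hJ hS hK _ (by omega) (by
        rw [show j + 1 + 1 = j + 2 by omega]
        omega) (dec_up S K)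
  | 5 =>
    refine ⟨a - 2, by omega, ?_, ?_, ?_⟩
    · show 1 * rk (dec S K) s J (a - 2 + 0) < rk (dec S K) s J (a - 2 + 1)
      rw [one_mul]
      rw [add_zero]
      exact rk_up (dec S K) r s J hs hJ hS hK _ (by omega) (by
        rw [show a - 2 + 1 = a - 1 by omega, show a - 2 + 2 = a by omega]
        omega) (dec_up S K)
    · intro l h1 hl
      show 1 * rk (dec S K) s J (a - 2 + l) < rk (dec S K) s J (a - 2 + (l + 1))
      rw [one_mul]
      have := hinup (dec S K) (l - 2) (by omega)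
      rw [show a + (l - 2) = a - 2 + l by omega] at this
      exact this
    · show 1 * rk (dec S K) s J (a - 2 + k) < rk (dec S K) s J (a - 2 + 0)
      rw [one_mul]
      rw [add_zero, show a - 2 + k = a + (k - 2) by omega, hin _ _ (by omega)]
      unfold rk
      rw [show a - 2 + 1 = a - 1 by omega]
      split_ifs
      · exact dec_lt2 S K _ _ _ _ (hK _ (by omega)) hprev hsa
      · exact dec_lt1 S K _ _ _ (hK _ (by omega))

end Pool.Agent.W142.OP
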