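import Mathlib
import Pool.Agent.W142.OP.Seq

set_option autoImplicit false

/-! OP: positions whose differences have prescribed orders of magnitude. -/

open Finset

namespace Pool.Agent.W142.OP

/-- positions -/
def posn {S K : ℕ} (A : ℕ) (R : Ranks S K) (s j : ℕ) : ℕ := (8 * (A + 1)) ^ R.rho s + (8 * (A + 1)) ^ R.kap s j

theorem one_le_powB (A a : ℕ) : 1 ≤ (8 * (A + 1)) ^ a := Nat.one_le_pow _ _ (by omega)

theorem pow8 (A : ℕ) {a b : ℕ} (h : a < b) : 8 * ((A + 1) * (8 * (A + 1)) ^ a) ≤ (8 * (A + 1)) ^ b := by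
  calc 8 * ((A + 1) * (8 * (A + 1)) ^ a) = (8 * (A + 1)) ^ (a + 1) := by ring
    _ ≤ (8 * (A + 1)) ^ b := Nat.pow_le_pow_right (by omega) h

theorem pow8' (A : ℕ) {a b : ℕ} (h : a < b) : 8 * (8 * (A + 1)) ^ a ≤ (8 * (A + 1)) ^ b := by
  refine le_trans ?_ (pow8 A h)
  apply Nat.mul_le_mul_left
  exact Nat.le_mul_of_pos_left _ (by omega)

theorem gap_bd {S K : ℕ} (A : ℕ) (R : Ranks S K) (s j s' j' : ℕ) (hs : s < S) (hs' : s' < S) (hj : j < K)
    (hj' : j' < K) (h : s < s' ∨ (s = s' ∧ j < j')) :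
    ∃ D : ℕ, posn A R s' j' = posn A R s j + D ∧
      (8 * (A + 1)) ^ (if s = s' then R.kap s' j' else R.rho s') < 2 * D ∧
      D < 2 * (8 * (A + 1)) ^ (if s = s' then R.kap s' j' else R.rho s') := by
  unfold posn
  rcases h with h | ⟨rfl, h⟩
  · rw [if_neg (by omega)]
    have h1 := pow8' A (R.lt4 _ _ h)
    have h2 := pow8' A (R.lt1 s j hs hj)
    have h3 := pow8' A (R.lt1 s' j' hs' hj')
    have h4 := one_le_powB A (R.kap s j)
    have h5 := one_le_powB A (R.kap s' j')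
    revert h1 h2 h3 h4 h5
    generalize (8 * (A + 1)) ^ R.rho s' = a
    generalize (8 * (A + 1)) ^ R.rho s = b
    generalize (8 * (A + 1)) ^ R.kap s' j' = c
    generalize (8 * (A + 1)) ^ R.kap s j = d
    intro h1 h2 h3 h4 h5
    exact ⟨a + c - (b + d), by omega, by omega, by omega⟩
  · rw [if_pos rfl]
    have h1 := pow8' A (R.lt3 s _ _ h)
    have h4 := one_le_powB A (R.kap s j)
    revert h1 h4
    generalize (8 * (A + 1)) ^ R.rho s = b
    generalize (8 * (A + 1)) ^ R.kap s j' = c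
    generalize (8 * (A + 1)) ^ R.kap s j = d
    intro h1 h4
    exact ⟨c - d, by omega, by omega, by omega⟩

theorem posn_le {S K : ℕ} (A : ℕ) (R : Ranks S K) (s j : ℕ) (hs : s < S) (hj : j < K) :
    posn A R s j ≤ 2 * (8 * (A + 1)) ^ R.rho S := by
  unfold posn
  have h1 := pow8' A (R.lt1 s j hs hj)
  have h2 := pow8' A (R.lt4 _ _ hs)
  omega

/-- the order of the positions -/
theorem posn_lt {S K : ℕ} (A : ℕ) (R : Ranks S K) (s j s' j' : ℕ) (hs : s < S) (hs' : s' < S) (hj : j < K)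
    (hj' : j' < K) (h : posn A R s j < posn A R s' j') : s < s' ∨ (s = s' ∧ j < j') := by
  by_contra hcon
  have h1 : s' < s ∨ (s' = s ∧ j' < j) ∨ (s = s' ∧ j = j') := by omega
  rcases h1 with h1 | h1 | h1
  · obtain ⟨D, hD, _⟩ := gap_bd A R s' j' s j hs' hs hj' hj (Or.inl h1)
    omega
  · obtain ⟨D, hD, _⟩ := gap_bd A R s' j' s j hs' hs hj' hj (Or.inr h1)
    omega
  · rw [h1.1, h1.2] at h
    exact lt_irrefl _ h

/-- comparison of differences by ranks -/
theorem diff_lt (A D D' a a' : ℕ) (h1 : D < 2 * (8 * (A + 1)) ^ a) (h2 : (8 * (A + 1)) ^ a' < 2 * D')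
    (h : a < a') : 2 * ((A + 1) * D) < D' := by
  have h3 := pow8 A h
  have h4 : (A + 1) * D ≤ (A + 1) * (2 * (8 * (A + 1)) ^ a) := Nat.mul_le_mul_left _ h1.le
  have h5 : (A + 1) * (2 * (8 * (A + 1)) ^ a) = 2 * ((A + 1) * (8 * (A + 1)) ^ a) := by ring
  omega

end Pool.Agent.W142.OP
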