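import Mathlib
import Pool.Agent.W142.OP.Design

set_option autoImplicit false

/-! OP: reading off the order pattern in a window. -/

open Finset

namespace Pool.Agent.W142.OP

/-- the gap after the `i`-th prime -/
noncomputable def dgap (i : ℕ) : ℕ := Nat.nth Nat.Prime (i + 1) - Nat.nth Nat.Prime i

theorem nth_mono {i j : ℕ} (h : i < j) : Nat.nth Nat.Prime i < Nat.nth Nat.Prime j :=
  Nat.nth_strictMono Nat.infinite_setOfPred_prime h

theorem window {S K : ℕ} (A k : ℕ) (hk : 2 ≤ k) (q a n : ℕ) (F u W : ℝ) (hu : 0 < u) (Wn : ℕ)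
    (sup : Fin K → ℕ) (hsup : ∀ j, sup j < S) (R : Ranks S K) (hWn : ∀ j : Fin K, posn A R (sup j) j ≤ Wn)
    (rev : Bool) (N : Fin K → ℕ) (hNinj : Function.Injective N)
    (hN : ∀ j : Fin K, N j = if rev then Wn - posn A R (sup j) j else posn A R (sup j) j)
    (t : Fin K → ℕ) (ht : ∀ j, u * (W + N j) < t j ∧ (t j : ℝ) ≤ u * (W + N j) + u / 4)
    (htF : ∀ j, (t j : ℝ) ≤ F) (ht0 : ∀ j, 0 < t j)
    (hex : ∀ s : ℕ, (s : ℝ) ≤ F → (n + s).Prime → n + s ≡ a [MOD q] ∧ ∃ j, s = t j)
    (v v' : ℕ) (hvv : v < v')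
    (hv : k + 2 ≤ (univ.filter (fun j => sup j = v ∧ (n + t j).Prime)).card)
    (hv' : k + 2 ≤ (univ.filter (fun j => sup j = v' ∧ (n + t j).Prime)).card)
    (T : ℕ) (hR : R = if T = 3 ∨ T = 4 then inter S K else dec S K) :
    ∃ i, n < Nat.nth Nat.Prime i ∧ (Nat.nth Nat.Prime (i + k + 1) : ℝ) ≤ n + F ∧
      (∀ l ≤ k + 1, Nat.nth Nat.Prime (i + l) ≡ a [MOD q]) ∧
      (∀ l ≤ k, u / 2 ≤ dgap (i + l) ∧ (dgap (i + l) : ℝ) ≤ F) ∧
      Shape A k (fun l => dgap (i + if rev then k - l else l)) T := by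
  classical
  have hinf := Nat.infinite_setOfPred_prime
  have hK0 : 0 < K := by
    by_contra hcon
    have : K = 0 := by omega
    subst this
    simp at hv
  have : Nonempty (Fin K) := ⟨⟨0, hK0⟩⟩
  have hF0 : 0 ≤ F := (Nat.cast_nonneg _).trans (htF ⟨0, hK0⟩)
  set P := Nat.nth Nat.Prime with hP
  set i0 := Nat.count Nat.Prime (n + 1) with hi0
  set i1 := Nat.count Nat.Prime (n + ⌊F⌋₊ + 1) with hi1
  have hlow : ∀ i, i0 ≤ i ↔ n < P i := by
    intro i
    rw [hi0, Nat.count_le_iff_le_nth hinf]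
    exact Nat.succ_le_iff
  have hupp : ∀ i, i < i1 ↔ P i ≤ n + ⌊F⌋₊ := by
    intro i
    rw [hi1, Nat.lt_nth_iff_count_lt hinf]
    exact Nat.lt_succ_iff
  have huppF : ∀ i, i < i1 → (P i : ℝ) ≤ n + F := by
    intro i hi
    have h1 := (hupp i).1 hi
    have h2 : (P i : ℝ) ≤ ((n + ⌊F⌋₊ : ℕ) : ℝ) := by exact_mod_cast h1
    push_cast at h2
    have := Nat.floor_le hF0
    linarith
  have hJ0 : ∀ i, ∃ j : Fin K, i0 ≤ i → i < i1 → P i = n + t j := by
    intro i
    by_cases h : i0 ≤ i ∧ i < i1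
    · have h1 := (hlow i).1 h.1
      have h2 := (hupp i).1 h.2
      have h3 : n + (P i - n) = P i := by omega
      obtain ⟨_, j, hj⟩ := hex (P i - n) (by
        have h4 : ((P i - n : ℕ) : ℝ) ≤ ⌊F⌋₊ := by
          have : P i - n ≤ ⌊F⌋₊ := by omega
          exact_mod_cast this
        exact h4.trans (Nat.floor_le hF0)) (by rw [h3]; exact Nat.prime_nth_prime i)
      exact ⟨j, fun _ _ => by omega⟩
    · exact ⟨⟨0, hK0⟩, fun h1 h2 => absurd ⟨h1, h2⟩ h⟩
  choose Jf hJf using hJ0
  have hmod : ∀ i, i0 ≤ i → i < i1 → P i ≡ a [MOD q] := by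
    intro i h1 h2
    rw [hJf i h1 h2]
    refine (hex (t (Jf i)) (htF _) ?_).1
    rw [← hJf i h1 h2]
    exact Nat.prime_nth_prime i
  have htN : ∀ j j', t j < t j' → N j < N j' := by
    intro j j' h
    by_contra hcon
    have h1 : N j' < N j ∨ N j' = N j := by omega
    have h2 : (t j : ℝ) < t j' := by exact_mod_cast h
    rcases h1 with h1 | h1
    · have h3 : (N j' : ℝ) + 1 ≤ N j := by exact_mod_cast h1
      have h4 := (ht j).1
      have h5 := (ht j').2
      have h6 : u * (W + (N j' + 1)) ≤ u * (W + N j) := mul_le_mul_of_nonneg_left (by linarith) hu.le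
      have h7 : u * (W + (N j' + 1)) = u * (W + N j') + u := by ring
      linarith
    · have := hNinj h1
      rw [this] at h
      exact lt_irrefl _ h
  have htinj : Function.Injective t := by
    intro j j' h
    by_contra hne
    have h1 : N j ≠ N j' := fun h => hne (hNinj h)
    have h2 : (t j : ℝ) = t j' := by exact_mod_cast h
    rcases Nat.lt_or_ge (N j) (N j') with h3 | h3
    · have h4 : (N j : ℝ) + 1 ≤ N j' := by exact_mod_cast h3
      have h5 := (ht j).2
      have h6 := (ht j').1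
      have h7 : u * (W + (N j + 1)) ≤ u * (W + N j') := mul_le_mul_of_nonneg_left (by linarith) hu.le
      have h8 : u * (W + (N j + 1)) = u * (W + N j) + u := by ring
      linarith
    · have h3' : N j' < N j := by omega
      have h4 : (N j' : ℝ) + 1 ≤ N j := by exact_mod_cast h3'
      have h5 := (ht j').2
      have h6 := (ht j).1
      have h7 : u * (W + (N j' + 1)) ≤ u * (W + N j) := mul_le_mul_of_nonneg_left (by linarith) hu.le
      have h8 : u * (W + (N j' + 1)) = u * (W + N j') + u := by ring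
      linarith
  obtain ⟨r, hr⟩ : ∃ r, r = i1 - i0 := ⟨_, rfl⟩
  obtain ⟨idx, hidx⟩ : ∃ idx : ℕ → ℕ, idx = fun l => if rev then i1 - 1 - l else i0 + l := ⟨_, rfl⟩
  have hidx0 : ∀ l < r, i0 ≤ idx l ∧ idx l < i1 := by
    intro l hl
    rw [hidx]
    cases rev <;> simp <;> omega
  obtain ⟨J, hJ⟩ : ∃ J : ℕ → Fin K, J = fun l => Jf (idx l) := ⟨_, rfl⟩
  have hPJ : ∀ l < r, P (idx l) = n + t (J l) := by
    intro l hl
    rw [hJ]
    exact hJf _ (hidx0 l hl).1 (hidx0 l hl).2
  have hpos : ∀ l l', l < l' → l' < r → posn A R (sup (J l)) (J l) < posn A R (sup (J l')) (J l') := by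
    intro l l' h1 h2
    have e1 := hPJ l (h1.trans h2)
    have e2 := hPJ l' h2
    have n1 := hN (J l)
    have n2 := hN (J l')
    have w1 := hWn (J l)
    have w2 := hWn (J l')
    rw [hidx] at e1 e2
    cases rev
    · simp only [Bool.false_eq_true, if_false] at e1 e2 n1 n2
      have h3 := nth_mono (show i0 + l < i0 + l' by omega)
      rw [← hP, e1, e2] at h3
      have h4 := htN _ _ (show t (J l) < t (J l') by omega)
      omega
    · simp only [if_true] at e1 e2 n1 n2
      have h3 := nth_mono (show i1 - 1 - l' < i1 - 1 - l by omega)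
      rw [← hP, e1, e2] at h3
      have h4 := htN _ _ (show t (J l') < t (J l) by omega)
      omega
  obtain ⟨s, hs⟩ : ∃ s : ℕ → ℕ, s = fun l => sup (J l) := ⟨_, rfl⟩
  have hlt : ∀ l l', l < l' → l' < r → s l < s l' ∨ (s l = s l' ∧ (J l : ℕ) < J l') := by
    intro l l' h1 h2
    rw [hs]
    exact posn_lt A R _ _ _ _ (hsup _) (hsup _) (J l).2 (J l').2 (hpos l l' h1 h2)
  have hmono : ∀ l l', l ≤ l' → l' < r → s l ≤ s l' := by
    intro l l' h1 h2
    rcases Nat.eq_or_lt_of_le h1 with rfl | h1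
    · exact le_rfl
    · have := hlt l l' h1 h2
      omega
  have hJlt : ∀ l l', l < l' → l' < r → s l = s l' → ((J l : Fin K) : ℕ) < J l' := by
    intro l l' h1 h2 h3
    have := hlt l l' h1 h2
    omega
  have hrich : ∀ w, k + 2 ≤ (univ.filter (fun j => sup j = w ∧ (n + t j).Prime)).card →
      k + 2 ≤ ((range r).filter (fun l => s l = w)).card := by
    intro w hw
    refine hw.trans ?_
    obtain ⟨ci, hci⟩ : ∃ ci : Fin K → ℕ, ci = fun j => Nat.count Nat.Prime (n + t j) := ⟨_, rfl⟩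
    have hc : ∀ j, (n + t j).Prime → P (ci j) = n + t j ∧ i0 ≤ ci j ∧ ci j < i1 := by
      intro j hj
      have h1 : P (ci j) = n + t j := by
        rw [hP, hci]
        exact Nat.nth_count hj
      refine ⟨h1, (hlow _).2 ?_, (hupp _).2 ?_⟩
      · rw [h1]
        have := ht0 j
        omega
      · rw [h1]
        have := Nat.le_floor (htF j)
        omega
    have hc2 : ∀ j, (n + t j).Prime → ∃ l < r, idx l = ci j := by
      intro j hj
      have h1 := hc j hj
      rw [hidx]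
      cases rev
      · exact ⟨ci j - i0, by omega, by simp; omega⟩
      · exact ⟨i1 - 1 - ci j, by omega, by simp; omega⟩
    have hc3 : ∀ j, ∃ l, (n + t j).Prime → l < r ∧ J l = j := by
      intro j
      by_cases hj : (n + t j).Prime
      · obtain ⟨l, hl, hl2⟩ := hc2 j hj
        refine ⟨l, fun _ => ⟨hl, ?_⟩⟩
        have h1 := hPJ l hl
        rw [hl2, (hc j hj).1] at h1
        exact (htinj (by omega)).symm
      · exact ⟨0, fun h => absurd h hj⟩
    choose Lf hLf using hc3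
    apply Finset.card_le_card_of_injOn Lf
    · intro j hj
      have hj' := (mem_filter.1 (Finset.mem_coe.1 hj)).2
      have h1 := hLf j hj'.2
      rw [Finset.mem_coe, mem_filter, mem_range]
      refine ⟨h1.1, ?_⟩
      rw [hs]
      simp only
      rw [h1.2]
      exact hj'.1
    · intro j hj j' hj' h
      have h1 := (hLf j (mem_filter.1 (Finset.mem_coe.1 hj)).2.2).2
      have h2 := (hLf j' (mem_filter.1 (Finset.mem_coe.1 hj')).2.2).2
      rw [← h1, h, h2]
  obtain ⟨l0, hl0, hshape⟩ := windows (S := S) (K := K) r k hk s (fun l => (J l : ℕ)) hmono hJlt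
    (fun l _ => by rw [hs]; exact hsup _) (fun l _ => (J l).2) v v' hvv (hrich v hv) (hrich v' hv') T
  rw [← hR] at hshape
  -- the gaps
  obtain ⟨gi, hgi⟩ : ∃ gi : ℕ → ℕ, gi = fun l => if rev then i1 - 2 - l else i0 + l := ⟨_, rfl⟩
  have hgap : ∀ l, l + 1 < r → ∃ D : ℕ, 1 ≤ D ∧ D < 2 * (8 * (A + 1)) ^ (rk R s (fun l => (J l : ℕ)) l) ∧
      (8 * (A + 1)) ^ (rk R s (fun l => (J l : ℕ)) l) < 2 * D ∧
      u * D - u / 4 < dgap (gi l) ∧ (dgap (gi l) : ℝ) < u * D + u / 4 := by
    intro l hl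
    have h1 := hlt l (l + 1) (by omega) hl
    rw [hs] at h1
    obtain ⟨D, hD1, hD2, hD3⟩ := gap_bd A R (sup (J l)) (J l) (sup (J (l + 1))) (J (l + 1)) (hsup _) (hsup _)
      (J l).2 (J (l + 1)).2 h1
    have hD0 : 1 ≤ D := by
      have := one_le_powB A (if sup (J l) = sup (J (l + 1)) then R.kap (sup (J (l + 1))) (J (l + 1)) else
        R.rho (sup (J (l + 1))))
      omega
    have hrkeq : rk R s (fun l => (J l : ℕ)) l = (if sup (J l) = sup (J (l + 1)) then
        R.kap (sup (J (l + 1))) (J (l + 1)) else R.rho (sup (J (l + 1)))) := by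
      unfold rk
      rw [hs]
    refine ⟨D, hD0, by rw [hrkeq]; exact hD3, by rw [hrkeq]; exact hD2, ?_⟩
    have e1 := hPJ l (by omega)
    have e2 := hPJ (l + 1) hl
    have n1 := hN (J l)
    have n2 := hN (J (l + 1))
    have w1 := hWn (J l)
    have w2 := hWn (J (l + 1))
    have a1 := ht (J l)
    have a2 := ht (J (l + 1))
    unfold dgap
    rw [← hP]
    rw [hidx] at e1 e2
    rw [hgi]
    cases rev
    · simp only [Bool.false_eq_true, if_false] at e1 e2 n1 n2 ⊢
      have h3 := nth_mono (show i0 + l < i0 + l + 1 by omega)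
      rw [← hP] at h3
      have h4 : ((P (i0 + l + 1) - P (i0 + l) : ℕ) : ℝ) = (t (J (l + 1)) : ℝ) - t (J l) := by
        rw [Nat.cast_sub h3.le, e1, show i0 + l + 1 = i0 + (l + 1) by omega, e2]
        push_cast
        ring
      rw [h4]
      have h5 : (N (J (l + 1)) : ℝ) = N (J l) + D := by
        rw [n2, hD1, ← n1]
        push_cast
        ring
      rw [h5] at a2
      constructor <;> linarith [a1.1, a1.2, a2.1, a2.2]
    · simp only [if_true] at e1 e2 n1 n2 ⊢
      have e3 : i1 - 2 - l + 1 = i1 - 1 - l := by omega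
      have e4 : i1 - 2 - l = i1 - 1 - (l + 1) := by omega
      have h3 := nth_mono (show i1 - 2 - l < i1 - 2 - l + 1 by omega)
      rw [← hP] at h3
      have h4 : ((P (i1 - 2 - l + 1) - P (i1 - 2 - l) : ℕ) : ℝ) = (t (J l) : ℝ) - t (J (l + 1)) := by
        rw [Nat.cast_sub h3.le, e3, e1, e4, e2]
        push_cast
        ring
      rw [h4]
      have h5 : (N (J l) : ℝ) = N (J (l + 1)) + D := by
        have : N (J l) = N (J (l + 1)) + D := by omega
        rw [this]
        push_cast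
        ring
      rw [h5] at a1
      constructor <;> linarith [a1.1, a1.2, a2.1, a2.2]
  have hcmp : ∀ l l', l + 1 < r → l' + 1 < r → rk R s (fun l => (J l : ℕ)) l < rk R s (fun l => (J l : ℕ)) l' →
      A * dgap (gi l) < dgap (gi l') := by
    intro l l' h1 h2 h3
    obtain ⟨D, hD0, hD1, hD2, hD3, hD4⟩ := hgap l h1
    obtain ⟨D', hD0', hD1', hD2', hD3', hD4'⟩ := hgap l' h2
    have h4 := diff_lt A D D' _ _ hD1 hD2' h3
    have h5 : 2 * (((A : ℝ) + 1) * D) ≤ D' := by exact_mod_cast h4.le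
    have h6 : u * (2 * (((A : ℝ) + 1) * D)) ≤ u * D' := mul_le_mul_of_nonneg_left h5 hu.le
    have hA0 : (0 : ℝ) ≤ A := Nat.cast_nonneg A
    have hD1' : (1 : ℝ) ≤ D := by exact_mod_cast hD0
    have h8 : (A : ℝ) * dgap (gi l) ≤ A * (u * D + u / 4) := mul_le_mul_of_nonneg_left hD4.le hA0
    have h9 : u ≤ u * D := le_mul_of_one_le_right hu.le hD1'
    have h10 : (A : ℝ) * u ≤ A * (u * D) := mul_le_mul_of_nonneg_left h9 hA0
    have h7 : (A : ℝ) * dgap (gi l) < dgap (gi l') := by
      have e1 : u * (2 * (((A : ℝ) + 1) * D)) = 2 * (A * (u * D)) + 2 * (u * D) := by ring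
      have e2 : (A : ℝ) * (u * D + u / 4) = A * (u * D) + A * u / 4 := by ring
      have e3 : 0 ≤ (A : ℝ) * (u * D) := by positivity
      linarith
    exact_mod_cast h7
  obtain ⟨i, hi⟩ : ∃ i, i = if rev then i1 - 2 - (l0 + k) else i0 + l0 := ⟨_, rfl⟩
  have hirange : i0 ≤ i ∧ i + k + 1 < i1 := by
    rw [hi]
    cases rev <;> simp <;> omega
  have hiG : ∀ l ≤ k, gi (l0 + l) = i + (if rev then k - l else l) := by
    intro l hl
    rw [hi, hgi]
    cases rev <;> simp <;> omega
  refine ⟨i, (hlow i).1 hirange.1, huppF _ hirange.2, fun l hl => hmod _ (by omega) (by omega), ?_, ?_⟩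
  · intro l hl
    have h1 : ∃ l' ≤ k, gi (l0 + l') = i + l := by
      cases hrev : rev
      · exact ⟨l, hl, by rw [hiG l hl, hrev]; simp⟩
      · exact ⟨k - l, by omega, by rw [hiG (k - l) (by omega), hrev]; simp; omega⟩
    obtain ⟨l', hl', h2⟩ := h1
    obtain ⟨D, hD0, _, _, hD3, hD4⟩ := hgap (l0 + l') (by omega)
    rw [h2] at hD3 hD4
    have h3 : (1 : ℝ) ≤ D := by exact_mod_cast hD0
    have h4 : u * 1 ≤ u * D := mul_le_mul_of_nonneg_left h3 hu.le
    refine ⟨by linarith, ?_⟩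
    have h5 := huppF (i + l + 1) (by omega)
    have h6 := (hlow (i + l)).1 (by omega)
    have h7 := nth_mono (show i + l < i + l + 1 by omega)
    rw [← hP] at h7
    unfold dgap
    rw [← hP, Nat.cast_sub h7.le]
    have h8 : (n : ℝ) < P (i + l) := by exact_mod_cast h6
    linarith
  · refine Shape.mono 1 A k (fun i => rk R s (fun l => (J l : ℕ)) (l0 + i)) _ hk ?_ T hshape
    intro l l' hl hl' h
    rw [one_mul] at h
    have h1 := hcmp (l0 + l) (l0 + l') (by omega) (by omega) h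
    rw [hiG l hl, hiG l' hl'] at h1
    exact h1

end Pool.Agent.W142.OP
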