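import Mathlib
import Pool.Agent.W142.ES.Core
import Pool.Agent.W142.OP.Window
import Pool.Agent.W142.OP.PlaceK

set_option autoImplicit false

/-! OP: order patterns of consecutive prime gaps at every scale up to the record scale. -/

open Finset Filter

namespace Pool.Agent.W142.OP

open Pool.Agent.H256R2.SC (ff)
open Pool.Agent.H312R2.RG.C3 (ff_tendsto ff_small)
open Pool.Agent.H362R2.RQ (StRQ cmod ev_bad)
open Pool.Agent.W142.ES (many_copies)

/-- the indices `i` such that the gaps after the `i`-th, ..., `(i+k)`-th prime have the pattern -/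
def Occ (A k q a : ℕ) (c X H : ℝ) (rev : Bool) (T : ℕ) : Set ℕ :=
  {i : ℕ | X < Nat.nth Nat.Prime i ∧ (Nat.nth Nat.Prime (i + k + 1) : ℝ) ≤ 4 * X ∧
    (∀ l ≤ k + 1, Nat.nth Nat.Prime (i + l) ≡ a [MOD q]) ∧
    (∀ l ≤ k, c * H ≤ dgap (i + l) ∧ (dgap (i + l) : ℝ) ≤ H) ∧
    Shape A k (fun l => dgap (i + if rev then k - l else l)) T}

theorem occurs (hst : StRQ) (A k : ℕ) (hk : 2 ≤ k) : ∃ c : ℝ, 0 < c ∧ ∀ q a : ℕ, Squarefree q → a.Coprime q →
    ∀ᶠ X : ℝ in atTop, ∀ H : ℝ, Real.log X ≤ H → H ≤ c * ff X → ∀ (rev : Bool) (T : ℕ),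
      X ^ (7 / 8 : ℝ) ≤ ((Occ A k q a c X H rev T).ncard : ℝ) := by
  classical
  obtain ⟨η, hη, hplace⟩ := placeK hst
  obtain ⟨S, hS⟩ : ∃ S : ℕ, S = ⌈4 / η⌉₊ + 1 := ⟨_, rfl⟩
  obtain ⟨M, hM⟩ : ∃ M : ℕ, M = ⌈2 * ((k : ℝ) + 2) / η⌉₊ + 1 := ⟨_, rfl⟩
  have hS0 : 0 < S := by omega
  have hM0 : 0 < M := by omega
  have hSη : 2 ≤ η / 2 * S := by
    have h1 : 4 / η ≤ S := by
      rw [hS]; push_cast
      have := Nat.le_ceil (4 / η)
      linarith
    rw [div_le_iff₀ hη] at h1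
    linarith
  have hMη : ((k + 2 : ℕ) : ℝ) ≤ η / 2 * M := by
    have h1 : 2 * ((k : ℝ) + 2) / η ≤ M := by
      rw [hM]; push_cast
      have := Nat.le_ceil (2 * ((k : ℝ) + 2) / η)
      linarith
    rw [div_le_iff₀ hη] at h1
    push_cast
    linarith
  have hm : 1 ≤ S * M := Nat.mul_pos hS0 hM0
  obtain ⟨K, hmK, c0, hc0, hpl⟩ := hplace (S * M) hm
  obtain ⟨sup, hsupdef⟩ : ∃ sup : Fin K → ℕ,
      sup = fun j => ((finProdFinEquiv.symm (cmod K (S * M) hm j)).1 : ℕ) := ⟨_, rfl⟩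
  have hsup : ∀ j, sup j < S := by
    intro j
    rw [hsupdef]
    exact (finProdFinEquiv.symm (cmod K (S * M) hm j)).1.2
  obtain ⟨Rb, hRb⟩ : ∃ Rb : Bool → Ranks S K, Rb = fun b => if b then inter S K else dec S K := ⟨_, rfl⟩
  obtain ⟨Wn, hWndef⟩ : ∃ Wn : ℕ, Wn = 2 * (8 * (A + 1)) ^ (Rb true).rho S + 2 * (8 * (A + 1)) ^ (Rb false).rho S := ⟨_, rfl⟩
  have hWn : ∀ b, ∀ j : Fin K, posn A (Rb b) (sup j) j ≤ Wn := by
    intro b j
    have h1 := posn_le A (Rb b) (sup j) j (hsup j) j.2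
    cases b <;> omega
  have hWn1 : 1 ≤ Wn := by
    have := one_le_powB A ((Rb true).rho S)
    omega
  obtain ⟨Nf, hNf⟩ : ∃ Nf : Bool × Bool → Fin K → ℕ, Nf = fun p j =>
      if p.2 then Wn - posn A (Rb p.1) (sup j) j else posn A (Rb p.1) (sup j) j := ⟨_, rfl⟩
  have hposinj : ∀ b, ∀ j j' : Fin K, posn A (Rb b) (sup j) j = posn A (Rb b) (sup j') j' → j = j' := by
    intro b j j' h
    by_contra hne
    have hne' : (j : ℕ) ≠ j' := fun h => hne (Fin.ext h)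
    have h1 : (sup j < sup j' ∨ (sup j = sup j' ∧ (j : ℕ) < j')) ∨
        (sup j' < sup j ∨ (sup j' = sup j ∧ (j' : ℕ) < j)) := by omega
    rcases h1 with h1 | h1
    · obtain ⟨D, hD, hD2, _⟩ := gap_bd A (Rb b) _ _ _ _ (hsup j) (hsup j') j.2 j'.2 h1
      have := one_le_powB A (if sup j = sup j' then (Rb b).kap (sup j') j' else (Rb b).rho (sup j'))
      omega
    · obtain ⟨D, hD, hD2, _⟩ := gap_bd A (Rb b) _ _ _ _ (hsup j') (hsup j) j'.2 j.2 h1
      have := one_le_powB A (if sup j' = sup j then (Rb b).kap (sup j) j else (Rb b).rho (sup j))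
      omega
  have hNfv : ∀ p j, Nf p j = if p.2 then Wn - posn A (Rb p.1) (sup j) j else posn A (Rb p.1) (sup j) j := by
    intro p j
    rw [hNf]
  have hNinj : ∀ p, Function.Injective (Nf p) := by
    intro p j j' h
    rw [hNfv, hNfv] at h
    apply hposinj p.1
    have h1 := hWn p.1 j
    have h2 := hWn p.1 j'
    revert h1 h2 h
    generalize posn A (Rb p.1) (sup j) j = A
    generalize posn A (Rb p.1) (sup j') j' = B
    intro h h1 h2
    split_ifs at h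
    · omega
    · exact h
  have hNle : ∀ p, ∀ j, Nf p j ≤ Wn := by
    intro p j
    have h1 := hWn p.1 j
    rw [hNfv]
    split_ifs
    · exact Nat.sub_le _ _
    · exact h1
  obtain ⟨c, hcdef⟩ : ∃ c : ℝ, c = min c0 (1 / (2 * (2 * (Wn : ℝ) + 1))) := ⟨_, rfl⟩
  have hWr : (0 : ℝ) ≤ Wn := Nat.cast_nonneg _
  have hc : 0 < c := by rw [hcdef]; exact lt_min hc0 (by positivity)
  have hcc0 : c ≤ c0 := by rw [hcdef]; exact min_le_left _ _
  have hcW : c ≤ 1 / (2 * (2 * (Wn : ℝ) + 1)) := by rw [hcdef]; exact min_le_right _ _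
  refine ⟨c, hc, fun q a hq ha => ?_⟩
  have hall : ∀ᶠ X : ℝ in atTop, ∀ p : Bool × Bool, ∀ F : ℝ, Real.log X ≤ F → F ≤ c0 * ff X →
      ∀ bad : Finset ℕ, (bad.card : ℝ) ≤ X ^ (9 / 10 : ℝ) →
      ∃ n : ℕ, X < n ∧ (n : ℝ) ≤ 3 * X ∧ n ∉ bad ∧ ∃ (t : Fin K → ℕ),
        (∀ j, F / (2 * Wn + 1) * ((Wn : ℝ) + Nf p j) < t j ∧
          (t j : ℝ) ≤ F / (2 * Wn + 1) * ((Wn : ℝ) + Nf p j) + F / (2 * Wn + 1) / 4) ∧
        (∃ D : Finset (Fin (S * M)), η * (S * M : ℕ) ≤ D.card ∧ ∀ d ∈ D, ∃ j, cmod K (S * M) hm j = d ∧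
          (n + t j).Prime) ∧
        ∀ s : ℕ, (s : ℝ) ≤ F → (n + s).Prime → n + s ≡ a [MOD q] ∧ ∃ j, s = t j :=
    Filter.eventually_all.2 fun p => hpl (Nf p) Wn (hNinj p) (hNle p) hWn1 q a hq ha
  filter_upwards [hall, ev_bad c hc, ff_small (c + 1) (by linarith),
    Real.tendsto_log_atTop.eventually_ge_atTop 80, eventually_ge_atTop (1 : ℝ),
    ff_tendsto.eventually_gt_atTop 0] with X hX hbadX hsmall hlX hX1 hffpos
  intro F hlF hFc rev T
  have hFpos : 0 < F := by linarith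
  have hFX : F ≤ X := by
    have : (c + 1) * ff X = c * ff X + ff X := by ring
    linarith
  by_contra hcon
  push Not at hcon
  set G := Occ A k q a c X F rev T with hG
  have hfinG : G.Finite := by
    apply (Set.finite_Iic ⌊4 * X⌋₊).subset
    intro i hi
    rw [Set.mem_Iic]
    apply Nat.le_floor
    have h1 : i + k + 1 ≤ Nat.nth Nat.Prime (i + k + 1) :=
      (Nat.nth_strictMono Nat.infinite_setOfPred_prime).le_apply
    have h2 : ((i + k + 1 : ℕ) : ℝ) ≤ 4 * X := le_trans (by exact_mod_cast h1) hi.2.1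
    refine le_trans ?_ h2
    exact_mod_cast (by omega : i ≤ i + k + 1)
  set G0 : Finset ℕ := hfinG.toFinset with hG0
  have hG0card : (G0.card : ℝ) < X ^ (7 / 8 : ℝ) := by
    rw [hG0, ← Set.ncard_eq_toFinset_card G hfinG]
    exact hcon
  set bad : Finset ℕ := G0.biUnion (fun i => Icc (Nat.nth Nat.Prime i - ⌊F⌋₊) (Nat.nth Nat.Prime i)) with hbaddef
  have hbadcard : (bad.card : ℝ) ≤ X ^ (9 / 10 : ℝ) := by
    have h3 : ((⌊F⌋₊ + 1 : ℕ) : ℝ) ≤ c * ff X + 1 := by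
      push_cast
      have := Nat.floor_le hFpos.le
      linarith
    have h1 : bad.card ≤ G0.card * (⌊F⌋₊ + 1) := by
      refine Finset.card_biUnion_le.trans ?_
      have h2 : ∀ i ∈ G0, (Icc (Nat.nth Nat.Prime i - ⌊F⌋₊) (Nat.nth Nat.Prime i)).card ≤ ⌊F⌋₊ + 1 := by
        intro i _
        rw [Nat.card_Icc]
        omega
      exact (Finset.sum_le_card_nsmul _ _ _ h2).trans (le_of_eq (by rw [smul_eq_mul]))
    refine le_trans ?_ hbadX
    calc (bad.card : ℝ) ≤ ((G0.card * (⌊F⌋₊ + 1) : ℕ) : ℝ) := by exact_mod_cast h1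
      _ = (G0.card : ℝ) * ((⌊F⌋₊ + 1 : ℕ) : ℝ) := by push_cast; ring
      _ ≤ X ^ (7 / 8 : ℝ) * (c * ff X + 1) :=
        mul_le_mul hG0card.le h3 (Nat.cast_nonneg _) (Real.rpow_nonneg (by linarith) _)
  obtain ⟨b, hb⟩ : ∃ b : Bool, b = decide (T = 3 ∨ T = 4) := ⟨_, rfl⟩
  have hFc0 : F ≤ c0 * ff X := hFc.trans (mul_le_mul_of_nonneg_right hcc0 hffpos.le)
  obtain ⟨n, hn1, hn2, hnbad, t, ht, ⟨D, hD1, hD2⟩, hex⟩ := hX (b, rev) F hlF hFc0 bad hbadcard
  set u : ℝ := F / (2 * Wn + 1) with hu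
  have hu0 : 0 < u := by positivity
  have huW : u * (2 * Wn + 1) = F := by rw [hu]; field_simp
  have hNr : ∀ j, (0 : ℝ) ≤ Nf (b, rev) j ∧ (Nf (b, rev) j : ℝ) ≤ Wn :=
    fun j => ⟨Nat.cast_nonneg _, by exact_mod_cast hNle (b, rev) j⟩
  have htF : ∀ j, (t j : ℝ) ≤ F := by
    intro j
    have h1 := (hNr j).2
    have h2 : u * ((Wn : ℝ) + Nf (b, rev) j + 1) ≤ u * (2 * Wn + 1) :=
      mul_le_mul_of_nonneg_left (by linarith) hu0.le
    have h3 := (ht j).2
    linarith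
  have ht0 : ∀ j, 0 < t j := by
    intro j
    have h1 := (hNr j).1
    have h3 := (ht j).1
    have h4 : (0 : ℝ) ≤ u * ((Wn : ℝ) + Nf (b, rev) j) := by positivity
    have h5 : (0 : ℝ) < t j := by linarith
    exact_mod_cast h5
  -- two rich blocks
  have hcop := many_copies (W := Fin S) M (k + 2) η (S * M) finProdFinEquiv hMη hM0 D hD1
  rw [Fintype.card_fin] at hcop
  set Ri := univ.filter (fun w : Fin S => k + 2 ≤ (univ.filter (fun c : Fin M => finProdFinEquiv (w, c) ∈ D)).card)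
    with hRi
  have hRi2 : 1 < Ri.card := by
    have h1 : (2 : ℝ) ≤ Ri.card := hSη.trans hcop
    have h2 : 2 ≤ Ri.card := by exact_mod_cast h1
    omega
  obtain ⟨w, hw, w', hw', hww⟩ := Finset.one_lt_card.1 hRi2
  have hrich : ∀ w ∈ Ri, k + 2 ≤ (univ.filter (fun j => sup j = (w : ℕ) ∧ (n + t j).Prime)).card := by
    intro w hw
    rw [hRi, mem_filter] at hw
    refine hw.2.trans ?_
    have h1 : ∀ c : Fin M, ∃ j : Fin K, finProdFinEquiv (w, c) ∈ D →
        cmod K (S * M) hm j = finProdFinEquiv (w, c) ∧ (n + t j).Prime := by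
      intro c
      by_cases hcD : finProdFinEquiv (w, c) ∈ D
      · obtain ⟨j, hj⟩ := hD2 _ hcD
        exact ⟨j, fun _ => hj⟩
      · exact ⟨⟨0, by omega⟩, fun h => absurd h hcD⟩
    choose jf hjf using h1
    apply Finset.card_le_card_of_injOn jf
    · intro c hc
      have hc' := (mem_filter.1 (Finset.mem_coe.1 hc)).2
      rw [Finset.mem_coe, mem_filter]
      refine ⟨mem_univ _, ?_, (hjf c hc').2⟩
      rw [hsupdef]
      simp only
      rw [(hjf c hc').1, Equiv.symm_apply_apply]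
    · intro c hc c' hc' h
      have h1 := (hjf c (mem_filter.1 (Finset.mem_coe.1 hc)).2).1
      have h2 := (hjf c' (mem_filter.1 (Finset.mem_coe.1 hc')).2).1
      rw [h, h2] at h1
      have h3 := finProdFinEquiv.injective h1
      exact (Prod.mk.inj h3).2.symm
  have hwne : (w : ℕ) ≠ w' := fun h => hww (Fin.ext h)
  have hRT : Rb b = if T = 3 ∨ T = 4 then inter S K else dec S K := by
    rw [hRb, hb]
    by_cases hT : T = 3 ∨ T = 4 <;> simp [hT]
  have hNb : ∀ j : Fin K, Nf (b, rev) j = if rev then Wn - posn A (Rb b) (sup j) j else posn A (Rb b) (sup j) j := by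
    intro j
    rw [hNf]
  have key : ∃ i, n < Nat.nth Nat.Prime i ∧ (Nat.nth Nat.Prime (i + k + 1) : ℝ) ≤ n + F ∧
      (∀ l ≤ k + 1, Nat.nth Nat.Prime (i + l) ≡ a [MOD q]) ∧
      (∀ l ≤ k, u / 2 ≤ dgap (i + l) ∧ (dgap (i + l) : ℝ) ≤ F) ∧
      Shape A k (fun l => dgap (i + if rev then k - l else l)) T := by
    rcases Nat.lt_or_ge (w : ℕ) w' with h | h
    · exact window A k hk q a n F u Wn hu0 Wn sup hsup (Rb b) (hWn b) rev (Nf (b, rev)) (hNinj _) hNb t ht htF ht0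
        hex w w' h (hrich w hw) (hrich w' hw') T hRT
    · exact window A k hk q a n F u Wn hu0 Wn sup hsup (Rb b) (hWn b) rev (Nf (b, rev)) (hNinj _) hNb t ht htF ht0
        hex w' w (by omega) (hrich w' hw') (hrich w hw) T hRT
  obtain ⟨i, hi1, hi2, hi3, hi4, hi5⟩ := key
  have hiG : i ∈ G := by
    refine ⟨?_, by linarith, hi3, fun l hl => ⟨?_, (hi4 l hl).2⟩, hi5⟩
    · have : (n : ℝ) < Nat.nth Nat.Prime i := by exact_mod_cast hi1
      linarith
    · refine le_trans ?_ (hi4 l hl).1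
      have h1 : c * F ≤ 1 / (2 * (2 * (Wn : ℝ) + 1)) * F := mul_le_mul_of_nonneg_right hcW hFpos.le
      have h2 : 1 / (2 * (2 * (Wn : ℝ) + 1)) * F = u / 2 := by rw [hu]; field_simp
      linarith
  apply hnbad
  rw [hbaddef, mem_biUnion]
  refine ⟨i, by rw [hG0, Set.Finite.mem_toFinset]; exact hiG, ?_⟩
  rw [mem_Icc]
  refine ⟨?_, hi1.le⟩
  have h1 := nth_mono (show i < i + k + 1 by omega)
  have h2 : (Nat.nth Nat.Prime i : ℝ) ≤ n + F := by
    have : (Nat.nth Nat.Prime i : ℝ) < Nat.nth Nat.Prime (i + k + 1) := by exact_mod_cast h1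
    linarith
  have h3 : ((Nat.nth Nat.Prime i - n : ℕ) : ℝ) ≤ F := by
    rw [Nat.cast_sub hi1.le]
    linarith
  have h4 := Nat.le_floor h3
  omega

end Pool.Agent.W142.OP
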